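import Pool.Agent.Q41.AB.Stm

/-!
Lemmas for the project of helper41: Krull's intersection theorem, finiteness of the order, and
intersections of monomial ideals in normal crossing equations.
-/

set_option autoImplicit false

open MvPolynomial

namespace Pool.Agent.Q20.AB

open Pool.Agent.Q41.AB
open Pool.Agent.Q41.RC (IsPt SNC colK CovK exists_selK)

theorem krull : S_Krull := by
  intro k σ _ _ q I G h
  have hx : (Ideal.Quotient.mk I G : MvPolynomial σ k ⧸ I) ∈
      (⨅ i : ℕ, (RingHom.ker (eval q)) ^ i • ⊤ :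
        Submodule (MvPolynomial σ k) (MvPolynomial σ k ⧸ I)) := by
    rw [Submodule.mem_iInf]
    intro B
    obtain ⟨i, hi, t, ht, rfl⟩ := Submodule.mem_sup.1 (h B)
    have h1 : (Ideal.Quotient.mk I (i + t)) = t • (Ideal.Quotient.mk I 1) := by
      rw [map_add, Ideal.Quotient.eq_zero_iff_mem.2 hi, zero_add]
      change Ideal.Quotient.mk I t = Ideal.Quotient.mk I (t * 1)
      rw [mul_one]
    rw [h1]
    exact Submodule.smul_mem_smul ht Submodule.mem_top
  obtain ⟨r, hr⟩ := (Ideal.mem_iInf_smul_pow_eq_bot_iff _ _).1 hx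
  refine ⟨1 - r.1, ?_, ?_⟩
  · have h1 : eval q r.1 = 0 := r.2
    rw [map_sub, map_one, h1, sub_zero]
    exact one_ne_zero
  · rw [← Ideal.Quotient.eq_zero_iff_mem, sub_mul, one_mul, map_sub, sub_eq_zero]
    exact hr.symm

variable {k ρ σ κ : Type} [Field k]

/-- division by a unit at `q` -/
theorem inv_mod (q : σ → k) (g : MvPolynomial σ k) (hg : eval q g ≠ 0) (B : ℕ) :
    ∃ h : MvPolynomial σ k, 1 - g * h ∈ (RingHom.ker (eval q)) ^ B := by
  have h1 : 1 - C (eval q g)⁻¹ * g ∈ RingHom.ker (eval q) := by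
    rw [RingHom.mem_ker, map_sub, map_one, map_mul, eval_C, inv_mul_cancel₀ hg, sub_self]
  have h2 := Ideal.pow_mem_pow h1 B
  obtain ⟨u, hu⟩ : ∃ u, (1 : MvPolynomial σ k) ^ B - (1 - C (eval q g)⁻¹ * g) ^ B =
      (1 - (1 - C (eval q g)⁻¹ * g)) * u := sub_dvd_pow_sub_pow _ _ B
  refine ⟨C (eval q g)⁻¹ * u, ?_⟩
  have h3 : 1 - g * (C (eval q g)⁻¹ * u) = (1 - C (eval q g)⁻¹ * g) ^ B := by
    have h4 : (1 : MvPolynomial σ k) ^ B - (1 - C (eval q g)⁻¹ * g) ^ B =
      (C (eval q g)⁻¹ * g) * u := by rw [hu]; ring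
    rw [one_pow] at h4
    linear_combination h4
  rw [h3]
  exact h2

theorem fin : S_Fin := by
  intro k ρ σ κ _ _ _ _ pr F v G hG ⟨q, hq, hqv⟩
  by_contra hcon
  push Not at hcon
  have key : ∀ B : ℕ, G ∈ (RingHom.ker (eval q)) ^ B := by
    intro B
    obtain ⟨g, hg, hgG⟩ := hcon (B * (∑ c, v c) + 1) q hq hqv
    have h1 : MI F {a | B * (∑ c, v c) + 1 ≤ wt v a} ≤ (RingHom.ker (eval q)) ^ B := by
      refine Ideal.span_le.2 ?_
      rintro p ⟨a, ha, rfl⟩
      have h2 : B ≤ ∑ c, if v c = 0 then 0 else a c := by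
        by_contra hlt
        push Not at hlt
        have h3 : wt v a ≤ (∑ c, if v c = 0 then 0 else a c) * ∑ c, v c := by
          unfold wt
          rw [Finset.sum_mul]
          refine Finset.sum_le_sum fun c _ => ?_
          split_ifs with h
          · rw [h]; simp
          · exact Nat.mul_le_mul_left _ (Finset.single_le_sum (f := v) (fun _ _ => Nat.zero_le _)
              (Finset.mem_univ c))
        have h4 : (∑ c, if v c = 0 then 0 else a c) * ∑ c, v c ≤ B * ∑ c, v c :=
          Nat.mul_le_mul_right _ hlt.le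
        have h5 : B * (∑ c, v c) + 1 ≤ wt v a := ha
        omega
      have h6 : ∏ c, F c ^ a c ∈ (RingHom.ker (eval q)) ^ (∑ c, if v c = 0 then 0 else a c) := by
        rw [← Finset.prod_pow_eq_pow_sum]
        refine Ideal.prod_mem_prod fun c _ => ?_
        split_ifs with h
        · rw [pow_zero]; simp
        · exact Ideal.pow_mem_pow (hqv c h) _
      exact Ideal.pow_le_pow_right h2 h6
    obtain ⟨h, hh⟩ := inv_mod q g hg B
    have h7 : G = (1 - g * h) * G + h * (g * G) := by ring
    rw [h7]
    exact Ideal.add_mem _ (Ideal.mul_mem_right _ _ hh) (Ideal.mul_mem_left _ _ (h1 hgG))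
  apply hG
  have h8 : G ∈ (⨅ i : ℕ, (RingHom.ker (eval q)) ^ i : Ideal (MvPolynomial σ k)) := by
    rw [Submodule.mem_iInf]; exact key
  rw [Ideal.iInf_pow_eq_bot_of_isDomain _ (RingHom.ker_ne_top _)] at h8
  exact h8

section inter

variable [Fintype σ] [Fintype κ]

/-- the exponents of the hypersurfaces in a monomial in the local coordinates -/
noncomputable def ex (sel : σ → Option κ) (s : σ →₀ ℕ) (c : κ) : ℕ := by
  classical
  exact ∑ b, if sel b = some c then s b else 0

omit [Fintype κ] in
theorem ex_add (sel : σ → Option κ) (s t : σ →₀ ℕ) (c : κ) :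
    ex sel (s + t) c = ex sel s c + ex sel t c := by
  classical
  unfold ex
  rw [← Finset.sum_add_distrib]
  refine Finset.sum_congr rfl fun b _ => ?_
  split_ifs <;> simp

/-- the local coordinates -/
noncomputable def Yc (F : κ → MvPolynomial σ k) (q : σ → k) (sel : σ → Option κ) (b : σ) :
    MvPolynomial σ k := (sel b).elim (X b - C (q b)) F

/-- the product of a monomial in the local coordinates -/
theorem aeval_mono (F : κ → MvPolynomial σ k) (q : σ → k) (sel : σ → Option κ) (s : σ →₀ ℕ) :
    ∃ P : MvPolynomial σ k, aeval (Yc F q sel) (monomial s (1 : k)) =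
      P * ∏ c, F c ^ ex sel s c := by
  classical
  refine ⟨∏ b, if sel b = none then Yc F q sel b ^ s b else 1, ?_⟩
  have h1 : ∏ c, F c ^ ex sel s c = ∏ b, if sel b = none then 1 else Yc F q sel b ^ s b := by
    have h2 : ∀ c, F c ^ ex sel s c = ∏ b, if sel b = some c then F c ^ s b else 1 := by
      intro c
      unfold ex
      rw [← Finset.prod_pow_eq_pow_sum]
      refine Finset.prod_congr rfl fun b _ => ?_
      split_ifs <;> simp
    rw [Finset.prod_congr rfl fun c _ => h2 c, Finset.prod_comm]
    refine Finset.prod_congr rfl fun b _ => ?_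
    rcases hb : sel b with _ | c
    · simp
    · rw [if_neg (by simp), Finset.prod_eq_single c]
      · rw [if_pos rfl]
        unfold Yc
        rw [hb]
        rfl
      · intro c' _ hc'
        rw [if_neg]
        intro h
        exact hc' (Option.some.inj h).symm
      · intro h
        exact absurd (Finset.mem_univ c) h
  rw [h1, ← Finset.prod_mul_distrib, aeval_monomial, map_one, one_mul,
    Finsupp.prod_fintype _ _ (by simp)]
  refine Finset.prod_congr rfl fun b _ => ?_
  split_ifs <;> simp

/-- a product of the hypersurfaces is divisible by a monomial in the local coordinates -/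
theorem gen_mono (F : κ → MvPolynomial σ k) (q : σ → k) (sel : σ → Option κ)
    (hinj : ∀ b b' c, sel b = some c → sel b' = some c → b = b') (a : κ → ℕ) :
    ∃ s : σ →₀ ℕ, (∀ c, (∃ b, sel b = some c) → ex sel s c = a c) ∧
      ∃ P : MvPolynomial σ k, ∏ c, F c ^ a c = P * aeval (Yc F q sel) (monomial s (1 : k)) := by
  classical
  refine ⟨Finsupp.equivFunOnFinite.symm (fun b => (sel b).elim 0 a), ?_, ?_⟩
  · rintro c ⟨b, hb⟩
    unfold ex
    rw [Finset.sum_eq_single b]
    · rw [if_pos hb]
      simp [hb]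
    · intro b' _ hb'
      rw [if_neg]
      intro h
      exact hb' (hinj _ _ _ h hb)
    · intro h
      exact absurd (Finset.mem_univ b) h
  · refine ⟨∏ c, if ∃ b, sel b = some c then 1 else F c ^ a c, ?_⟩
    have h1 : aeval (Yc F q sel) (monomial (Finsupp.equivFunOnFinite.symm
        (fun b => (sel b).elim 0 a)) (1 : k)) = ∏ c, if ∃ b, sel b = some c then F c ^ a c else 1 := by
      rw [aeval_monomial, map_one, one_mul, Finsupp.prod_fintype _ _ (by simp)]
      have h2 : ∀ c, (if ∃ b, sel b = some c then F c ^ a c else 1) =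
          ∏ b, if sel b = some c then F c ^ a c else 1 := by
        intro c
        split_ifs with h
        · obtain ⟨b, hb⟩ := h
          rw [Finset.prod_eq_single b, if_pos hb]
          · intro b' _ hb'
            rw [if_neg]
            intro h
            exact hb' (hinj _ _ _ h hb)
          · intro h
            exact absurd (Finset.mem_univ b) h
        · symm
          refine Finset.prod_eq_one fun b _ => ?_
          rw [if_neg]
          intro hb
          exact h ⟨b, hb⟩
      rw [Finset.prod_congr rfl fun c _ => h2 c, Finset.prod_comm]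
      refine Finset.prod_congr rfl fun b _ => ?_
      rcases hb : sel b with _ | c
      · simp [hb]
      · rw [Finset.prod_eq_single c]
        · rw [if_pos rfl]
          unfold Yc
          simp [hb]
        · intro c' _ hc'
          rw [if_neg]
          intro h
          exact hc' (Option.some.inj h).symm
        · intro h
          exact absurd (Finset.mem_univ c) h
    rw [h1, ← Finset.prod_mul_distrib]
    refine Finset.prod_congr rfl fun c _ => ?_
    split_ifs <;> simp

/-- the elements of a monomial ideal in the local coordinates -/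
theorem mi_approx (F : κ → MvPolynomial σ k) (q : σ → k) (sel : σ → Option κ)
    (hinj : ∀ b b' c, sel b = some c → sel b' = some c → b = b')
    (hcov : ∀ c, eval q (F c) = 0 → ∃ b, sel b = some c)
    (hCH : ∀ (B : ℕ) (G : MvPolynomial σ k), ∃ T : MvPolynomial σ k,
      G - aeval (Yc F q sel) T ∈ (RingHom.ker (eval q)) ^ B)
    (S : Set (κ → ℕ)) (hS : IsUpperSet S)
    (hSJ : ∀ a ∈ S, ∀ b : κ → ℕ, (∀ c, eval q (F c) = 0 → b c = a c) → b ∈ S)
    (B : ℕ) (G : MvPolynomial σ k) (hG : G ∈ MI F S ⊔ (RingHom.ker (eval q)) ^ B) :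
    ∃ T : MvPolynomial σ k, (∀ s ∈ T.support, ex sel s ∈ S) ∧
      G - aeval (Yc F q sel) T ∈ (RingHom.ker (eval q)) ^ B := by
  classical
  obtain ⟨i, hi, t, ht, rfl⟩ := Submodule.mem_sup.1 hG
  suffices h : ∃ T : MvPolynomial σ k, (∀ s ∈ T.support, ex sel s ∈ S) ∧
      i - aeval (Yc F q sel) T ∈ (RingHom.ker (eval q)) ^ B by
    obtain ⟨T, hT, hi⟩ := h
    refine ⟨T, hT, ?_⟩
    have h1 : i + t - aeval (Yc F q sel) T = (i - aeval (Yc F q sel) T) + t := by ring
    rw [h1]
    exact Ideal.add_mem _ hi ht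
  clear hG ht
  unfold MI at hi
  induction hi using Submodule.span_induction with
  | mem p hp =>
    obtain ⟨a, ha, rfl⟩ := hp
    obtain ⟨s, hs, P, hP⟩ := gen_mono F q sel hinj a
    obtain ⟨T0, hT0⟩ := hCH B P
    refine ⟨T0 * monomial s 1, ?_, ?_⟩
    · intro s' hs'
      obtain ⟨t0, _, s1, hs1, rfl⟩ := Finset.mem_add.1 (support_mul _ _ hs')
      have h1 : s1 = s := by
        have h2 := support_monomial_subset hs1
        rwa [Finset.mem_singleton] at h2
      subst h1
      have h3 : (fun c => if eval q (F c) = 0 then ex sel (t0 + s1) c else a c) ∈ S := by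
        refine hS (a := a) ?_ ha
        intro c
        change a c ≤ if eval q (F c) = 0 then ex sel (t0 + s1) c else a c
        split_ifs with h
        · rw [ex_add, hs c (hcov c h)]
          exact Nat.le_add_left _ _
        · exact le_rfl
      refine hSJ _ h3 _ fun c hc => ?_
      rw [if_pos hc]
    · rw [hP, map_mul]
      have h1 : P * aeval (Yc F q sel) (monomial s (1 : k)) -
          aeval (Yc F q sel) T0 * aeval (Yc F q sel) (monomial s (1 : k)) =
          (P - aeval (Yc F q sel) T0) * aeval (Yc F q sel) (monomial s (1 : k)) := by ring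
      rw [h1]
      exact Ideal.mul_mem_right _ _ hT0
  | zero => exact ⟨0, by simp, by simp⟩
  | add x y _ _ hx hy =>
    obtain ⟨T1, h1, h2⟩ := hx
    obtain ⟨T2, h3, h4⟩ := hy
    refine ⟨T1 + T2, ?_, ?_⟩
    · intro s hs
      rcases Finset.mem_union.1 (support_add hs) with h | h
      · exact h1 s h
      · exact h3 s h
    · rw [map_add]
      have h5 : x + y - (aeval (Yc F q sel) T1 + aeval (Yc F q sel) T2) =
        (x - aeval (Yc F q sel) T1) + (y - aeval (Yc F q sel) T2) := by ring
      rw [h5]
      exact Ideal.add_mem _ h2 h4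
  | smul P x _ hx =>
    obtain ⟨T1, h1, h2⟩ := hx
    obtain ⟨T0, hT0⟩ := hCH B P
    refine ⟨T0 * T1, ?_, ?_⟩
    · intro s' hs'
      obtain ⟨t0, _, s1, hs1, rfl⟩ := Finset.mem_add.1 (support_mul _ _ hs')
      refine hS (a := ex sel s1) ?_ (h1 s1 hs1)
      intro c
      rw [ex_add]
      exact Nat.le_add_left _ _
    · rw [smul_eq_mul, map_mul]
      have h5 : P * x - aeval (Yc F q sel) T0 * aeval (Yc F q sel) T1 =
        (P - aeval (Yc F q sel) T0) * x + aeval (Yc F q sel) T0 * (x - aeval (Yc F q sel) T1) := by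
        ring
      rw [h5]
      exact Ideal.add_mem _ (Ideal.mul_mem_right _ _ hT0) (Ideal.mul_mem_left _ _ h2)

end inter

/-- Intersections of monomial ideals. -/
theorem inter (ch : S_CH) : S_Inter := by
  intro k ρ σ κ _ _ _ _ pr F snc q hq U W hU hW hUJ hWJ G hGU hGW
  classical
  obtain ⟨J, hJ⟩ : ∃ J : Finset κ, ∀ c, c ∈ J ↔ eval q (F c) = 0 :=
    ⟨Finset.univ.filter fun c => eval q (F c) = 0, by simp⟩
  have hw : LinearIndependent k fun (c : J) (i : σ) => eval q (pderiv i (F c)) := by
    have h1 := snc q hq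
    have h2 := h1.comp (fun c : J => (⟨c.1, (hJ c.1).1 c.2⟩ : {c // eval q (F c) = 0})) (by
      intro c c' h
      have h3 := congrArg Subtype.val h
      exact Subtype.ext h3)
    exact h2
  obtain ⟨sel, ⟨hcov, hsel⟩, hdet⟩ := exists_selK J (fun c i => eval q (pderiv i (F c))) hw J
    (Finset.Subset.refl _)
  have hinj : ∀ b b' c, sel b = some c → sel b' = some c → b = b' := by
    intro b b' c hb hb'
    by_contra hne
    apply hdet
    refine Matrix.det_zero_of_column_eq hne ?_
    intro l
    unfold colK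
    rw [Matrix.of_apply, Matrix.of_apply, hb, hb']
    rfl
  have hY0 : ∀ b, eval q (Yc F q sel b) = 0 := by
    intro b
    unfold Yc
    rcases hb : sel b with _ | c
    · simp
    · exact (hJ c).1 (hsel b c hb)
  have hmat : (Matrix.of fun i b => eval q (pderiv i (Yc F q sel b))) =
      colK (fun c i => eval q (pderiv i (F c))) sel := by
    ext i b
    unfold colK Yc
    rw [Matrix.of_apply, Matrix.of_apply]
    rcases hb : sel b with _ | c
    · change eval q (pderiv i (X b - C (q b))) = if i = b then 1 else 0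
      rw [map_sub, pderiv_C, sub_zero, pderiv_X, Pi.single_apply]
      split_ifs with h1 h2 h2
      · exact map_one _
      · exact absurd h1.symm h2
      · exact absurd h2.symm h1
      · exact map_zero _
    · rfl
  obtain ⟨ch1, ch2⟩ := ch q (Yc F q sel) hY0 (by rw [hmat]; exact hdet)
  have hcov' : ∀ c, eval q (F c) = 0 → ∃ b, sel b = some c := fun c hc => hcov c ((hJ c).2 hc)
  -- the monomials of an approximation
  have key : ∀ (S : Set (κ → ℕ)), IsUpperSet S →
      (∀ a ∈ S, ∀ b : κ → ℕ, (∀ c, eval q (F c) = 0 → b c = a c) → b ∈ S) → LocIn F q S G →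
      ∀ (B : ℕ) (T : MvPolynomial σ k), G - aeval (Yc F q sel) T ∈ (RingHom.ker (eval q)) ^ B →
      ∀ s ∈ T.support, s.degree < B → ex sel s ∈ S := by
    intro S hS hSJ ⟨g, hg, hgG⟩ B T hT s hs hsB
    obtain ⟨h, hh⟩ := inv_mod q g hg B
    have h1 : G ∈ MI F S ⊔ (RingHom.ker (eval q)) ^ B := by
      have h7 : G = h * (g * G) + (1 - g * h) * G := by ring
      rw [h7]
      exact Submodule.add_mem_sup (Ideal.mul_mem_left _ _ hgG) (Ideal.mul_mem_right _ _ hh)
    obtain ⟨T', hT', hGT'⟩ := mi_approx F q sel hinj hcov' ch1 S hS hSJ B G h1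
    have h2 : aeval (Yc F q sel) (T - T') ∈ (RingHom.ker (eval q)) ^ B := by
      have h3 : aeval (Yc F q sel) (T - T') =
          (G - aeval (Yc F q sel) T') - (G - aeval (Yc F q sel) T) := by
        rw [map_sub]; ring
      rw [h3]
      exact Ideal.sub_mem _ hGT' hT
    have h4 := ch2 B _ h2
    apply hT'
    rw [mem_support_iff]
    intro h5
    have h6 : s ∈ (T - T').support := by
      rw [mem_support_iff, coeff_sub, h5, sub_zero]
      exact mem_support_iff.1 hs
    have h7 := h4 s h6
    omega
  refine krull q _ G fun B => ?_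
  obtain ⟨T, hT⟩ := ch1 B G
  have h1 : G = aeval (Yc F q sel) T + (G - aeval (Yc F q sel) T) := by ring
  rw [h1]
  refine Ideal.add_mem _ ?_ (Submodule.mem_sup_right hT)
  rw [T.as_sum, map_sum]
  refine Submodule.sum_mem _ fun s hs => ?_
  have h2 : monomial s (coeff s T) = C (coeff s T) * monomial s (1 : k) := by
    rw [C_mul_monomial, mul_one]
  rw [h2, map_mul]
  refine Ideal.mul_mem_left _ _ ?_
  by_cases hB : s.degree < B
  · refine Submodule.mem_sup_left ?_
    obtain ⟨P, hP⟩ := aeval_mono F q sel s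
    rw [hP]
    refine Ideal.mul_mem_left _ _ (Ideal.subset_span ?_)
    exact ⟨ex sel s, ⟨key U hU hUJ hGU B T hT s hs hB, key W hW hWJ hGW B T hT s hs hB⟩, rfl⟩
  · refine Submodule.mem_sup_right ?_
    rw [aeval_monomial, map_one, one_mul, Finsupp.prod_fintype _ _ (by simp)]
    have h3 : ∏ b, Yc F q sel b ^ s b ∈ (RingHom.ker (eval q)) ^ (∑ b, s b) := by
      rw [← Finset.prod_pow_eq_pow_sum]
      exact Ideal.prod_mem_prod fun b _ => Ideal.pow_mem_pow (hY0 b) _
    refine Ideal.pow_le_pow_right ?_ h3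
    rw [Finsupp.degree_eq_sum] at hB
    omega

end Pool.Agent.Q20.AB
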